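import Mathlib

namespace Pool.Agent.H.MP_2fe47b_co

open Finset Filter Topology

variable {V : Type} [Fintype V]

def cs (c s : V → ℝ) (i j : V) : ℝ := c i * c j + s i * s j

def sn (c s : V → ℝ) (i j : V) : ℝ := c i * s j - s i * c j

noncomputable def dE (A : V → V → ℝ) (c s x : V → ℝ) (τ : ℝ) : ℝ :=
  ∑ i, ∑ j, A i j * (cs c s i j * (1 - Real.cos (τ * (x j - x i))) +
    sn c s i j * Real.sin (τ * (x j - x i)))

/-- A dense graph together with a configuration of unit vectors that is a local minimum along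
every line. -/
structure LM (A : V → V → ℝ) (n ν : ℝ) (c s : V → ℝ) : Prop where
  card : (Fintype.card V : ℝ) = n
  pos : 0 < n
  symm : ∀ i j, A i j = A j i
  zo : ∀ i j, A i j = 0 ∨ A i j = 1
  deg : ∀ i, ∑ j, (1 - A i j) ≤ ν * n
  unit : ∀ i, c i ^ 2 + s i ^ 2 = 1
  loc : ∀ x, ∀ᶠ τ in 𝓝 (0 : ℝ), 0 ≤ dE A c s x τ

variable {A : V → V → ℝ} {n ν : ℝ} {c s : V → ℝ}

theorem LM.one (h : LM A n ν c s) (r : ℝ) : ∑ _v : V, r = n * r := by
  rw [sum_const, card_univ, nsmul_eq_mul, h.card]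

theorem LM.A0 (h : LM A n ν c s) (i j : V) : 0 ≤ A i j := by
  rcases h.zo i j with e | e <;> rw [e] <;> norm_num

theorem LM.B0 (h : LM A n ν c s) (i j : V) : 0 ≤ 1 - A i j := by
  rcases h.zo i j with e | e <;> rw [e] <;> norm_num

theorem LM.csn (h : LM A n ν c s) (i j : V) : cs c s i j ^ 2 + sn c s i j ^ 2 = 1 := by
  unfold cs sn
  linear_combination (c j ^ 2 + s j ^ 2) * h.unit i + h.unit j

theorem LM.first (h : LM A n ν c s) (x : V → ℝ) :
    ∑ i, ∑ j, A i j * (sn c s i j * (x j - x i)) = 0 := by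
  have h1 : IsLocalMin (dE A c s x) 0 := by
    have : dE A c s x 0 = 0 := by simp [dE]
    unfold IsLocalMin IsMinFilter
    rw [this]; exact h.loc x
  refine h1.hasDerivAt_eq_zero ?_
  unfold dE
  refine HasDerivAt.fun_sum fun i _ => HasDerivAt.fun_sum fun j _ => ?_
  have a1 := hasDerivAt_mul_const (x := (0 : ℝ)) (x j - x i)
  have a2 := (((a1.cos.const_sub 1).const_mul (cs c s i j)).fun_add
    (a1.sin.const_mul (sn c s i j))).const_mul (A i j)
  simpa using a2

theorem LM.second (h : LM A n ν c s) (x : V → ℝ) :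
    0 ≤ ∑ i, ∑ j, A i j * (cs c s i j * (x j - x i) ^ 2) := by
  have h1 : ∀ d : ℝ, Tendsto (fun τ : ℝ => τ⁻¹ * Real.sin (τ * (d / 2))) (𝓝[≠] 0) (𝓝 (d / 2)) := by
    intro d
    have := (hasDerivAt_mul_const (x := (0 : ℝ)) (d / 2)).sin.tendsto_slope_zero
    simpa using this
  have h2 : Tendsto (fun τ : ℝ => ∑ i, ∑ j, A i j * (cs c s i j *
      (2 * (τ⁻¹ * Real.sin (τ * ((x j - x i) / 2)))) ^ 2)) (𝓝[≠] 0)
      (𝓝 (∑ i, ∑ j, A i j * (cs c s i j * (2 * ((x j - x i) / 2)) ^ 2))) :=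
    tendsto_finset_sum _ fun i _ => tendsto_finset_sum _ fun j _ =>
      ((((h1 _).const_mul 2).pow 2).const_mul _).const_mul _
  have h3 : ∀ᶠ τ in 𝓝 (0 : ℝ), 0 ≤ dE A c s x (-τ) := by
    have : Tendsto (fun τ : ℝ => -τ) (𝓝 0) (𝓝 0) := by
      simpa using (continuous_neg (G := ℝ)).tendsto 0
    exact this.eventually (h.loc x)
  refine le_of_le_of_eq (ge_of_tendsto h2 ?_) (by simp only [mul_div_cancel₀ _ (two_ne_zero' ℝ)])
  filter_upwards [nhdsWithin_le_nhds (h.loc x), nhdsWithin_le_nhds h3] with τ a1 a2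
  refine le_of_le_of_eq (mul_nonneg (sq_nonneg τ⁻¹) (add_nonneg a1 a2)) ?_
  simp only [dE, ← sum_add_distrib, mul_sum, neg_mul, Real.cos_neg, Real.sin_neg]
  refine sum_congr rfl fun i _ => sum_congr rfl fun j _ => ?_
  have := Real.cos_two_mul (τ * ((x j - x i) / 2))
  rw [show 2 * (τ * ((x j - x i) / 2)) = τ * (x j - x i) by ring, Real.cos_sq'] at this
  rw [this]; ring

theorem LM.eq1 (h : LM A n ν c s) (i : V) : ∑ j, A i j * sn c s i j = 0 := by
  classical
  have h1 := h.first fun k => if k = i then 1 else 0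
  simp only [mul_sub, sum_sub_distrib, mul_ite, mul_one, mul_zero, sum_ite_eq', mem_univ, if_true,
    sum_ite_irrel, sum_const_zero] at h1
  have h2 : ∑ k, A k i * sn c s k i = -∑ j, A i j * sn c s i j := by
    rw [← sum_neg_distrib]
    exact sum_congr rfl fun k _ => by rw [h.symm k i]; unfold sn; ring
  linarith

theorem LM.Q (h : LM A n ν c s) : 0 ≤ ∑ i, ∑ j, A i j * (cs c s i j - cs c s i j ^ 2) := by
  have h1 := add_nonneg (h.second c) (h.second s)
  simp only [← sum_add_distrib] at h1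
  have : ∑ i, ∑ j, (A i j * (cs c s i j * (c j - c i) ^ 2) + A i j * (cs c s i j * (s j - s i) ^ 2))
      = 2 * ∑ i, ∑ j, A i j * (cs c s i j - cs c s i j ^ 2) := by
    simp only [mul_sum]
    refine sum_congr rfl fun i _ => sum_congr rfl fun j _ => ?_
    unfold cs
    linear_combination A i j * (c i * c j + s i * s j) * (h.unit i + h.unit j)
  linarith

theorem rot_cs (c s : V → ℝ) {p q : ℝ} (h : p ^ 2 + q ^ 2 = 1) :
    cs (fun i => p * c i + q * s i) (fun i => p * s i - q * c i) = cs c s ∧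
    sn (fun i => p * c i + q * s i) (fun i => p * s i - q * c i) = sn c s := by
  constructor <;> ext i j
  · unfold cs; linear_combination (c i * c j + s i * s j) * h
  · unfold sn; linear_combination (c i * s j - s i * c j) * h

theorem LM.rot (h : LM A n ν c s) {p q : ℝ} (hp : p ^ 2 + q ^ 2 = 1) :
    LM A n ν (fun i => p * c i + q * s i) (fun i => p * s i - q * c i) :=
  ⟨h.card, h.pos, h.symm, h.zo, h.deg,
    fun i => by linear_combination (c i ^ 2 + s i ^ 2) * hp + h.unit i, fun x => by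
      unfold dE
      rw [(rot_cs c s hp).1, (rot_cs c s hp).2]
      exact h.loc x⟩

theorem dir (a b : ℝ) : ∃ p q : ℝ, p ^ 2 + q ^ 2 = 1 ∧ p * b - q * a = 0 ∧ 0 ≤ p * a + q * b ∧
    (p * a + q * b) ^ 2 = a ^ 2 + b ^ 2 := by
  by_cases h : a ^ 2 + b ^ 2 = 0
  · have ha : a = 0 := by nlinarith
    have hb : b = 0 := by nlinarith
    exact ⟨1, 0, by simp, by simp [ha, hb], by simp [ha], by simp [hb]⟩
  have h1 : 0 < a ^ 2 + b ^ 2 := lt_of_le_of_ne (by positivity) (Ne.symm h)
  have h2 := Real.sqrt_pos.2 h1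
  have h3 := Real.sq_sqrt h1.le
  generalize √(a ^ 2 + b ^ 2) = r at h2 h3
  have e : a / r * a + b / r * b = r := by field_simp; linarith
  exact ⟨a / r, b / r, by field_simp; linarith, by ring, by rw [e]; exact h2.le, by rw [e, h3]⟩

theorem LM.cut (h : LM A n ν c s) (hν : ν < 1 / 2) (M : V → Prop)
    (h1 : ∀ i j, M i → ¬M j → A i j = 0) {i j : V} (hi : M i) : M j := by
  by_contra hj
  have a1 : ∑ _k : V, (1 : ℝ) ≤ ∑ k, ((1 - A i k) + (1 - A j k)) := by
    refine sum_le_sum fun k _ => ?_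
    by_cases e : M k
    · rw [h.symm j k, h1 k j e hj]; linarith [h.B0 i k]
    · rw [h1 i k hi e]; linarith [h.B0 j k]
  rw [h.one, sum_add_distrib] at a1
  nlinarith [h.deg i, h.deg j, h.pos]

theorem zero_of_sum {f : V → V → ℝ} (h0 : ∀ i j, 0 ≤ f i j) (h : ∑ i, ∑ j, f i j ≤ 0) (i j : V) :
    f i j = 0 := by
  refine le_antisymm (le_trans ?_ h) (h0 i j)
  exact (single_le_sum (fun k _ => h0 i k) (mem_univ j)).trans
    (single_le_sum (f := fun i => ∑ j, f i j) (fun k _ => sum_nonneg fun l _ => h0 k l)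
      (mem_univ i))

theorem LM.sig (h : LM A n ν c s) (hs : ∑ i, s i = 0) (i : V) :
    ∑ j, (1 - A i j) * sn c s i j = -(s i * ∑ j, c j) := by
  simp only [sub_mul, one_mul, sum_sub_distrib, h.eq1 i]
  simp only [sn, sum_sub_distrib, ← mul_sum, hs]
  ring

theorem LM.sync (h : LM A n ν c s) (hν : ν ≤ 26 / 100) (hs : ∑ i, s i = 0)
    (hc : 4 / 10 * n ≤ ∑ i, c i) (i j : V) : cs c s i j = 1 := by
  classical
  have hn := h.pos
  have h1 : ∀ i, s i ^ 2 < 1 / 2 := fun i => by
    have a1 : |∑ j, (1 - A i j) * sn c s i j| ≤ ∑ j, (1 - A i j) := by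
      refine (abs_sum_le_sum_abs _ _).trans (sum_le_sum fun j _ => ?_)
      rw [abs_mul, abs_of_nonneg (h.B0 i j)]
      refine mul_le_of_le_one_right (h.B0 i j) (abs_le_one_iff_mul_self_le_one.2 ?_)
      nlinarith [h.csn i j, sq_nonneg (cs c s i j)]
    rw [h.sig hs, abs_neg, abs_mul, abs_of_nonneg (by linarith : 0 ≤ ∑ i, c i)] at a1
    have a2 : |s i| * (4 / 10 * n) ≤ 65 / 100 * (4 / 10 * n) := by
      nlinarith [h.deg i, mul_le_mul_of_nonneg_left hc (abs_nonneg (s i))]
    have a3 := le_of_mul_le_mul_right a2 (by positivity)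
    nlinarith [sq_abs (s i), abs_nonneg (s i)]
  have h2 : ∀ i j, 0 < c i → ¬0 < c j → cs c s i j < 0 := fun i j a b => by
    have a1 : 1 / 2 < c i ^ 2 := by linarith [h.unit i, h1 i]
    have a2 : 1 / 2 < c j ^ 2 := by linarith [h.unit j, h1 j]
    have a3 : c i * c j < -(1 / 2) := by nlinarith [mul_nonneg a.le (neg_nonneg.2 (not_lt.1 b))]
    unfold cs
    nlinarith [h1 i, h1 j, sq_nonneg (s i - s j)]
  obtain ⟨i0, -, hi0⟩ : ∃ i ∈ (univ : Finset V), (0 : ℝ) < c i :=
    exists_lt_of_sum_lt (by rw [sum_const_zero]; linarith)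
  have h3 : ∀ j, 0 < c j := fun j => by
    refine h.cut (by linarith) (fun i => 0 < c i) (fun i j a b => ?_) hi0
    have a1 := h.second fun k => if 0 < c k then 1 else 0
    have a2 := zero_of_sum (f := fun i j => -(A i j * (cs c s i j *
        ((if 0 < c j then 1 else 0) - (if 0 < c i then 1 else 0)) ^ 2))) (fun i j => by
      rw [neg_nonneg]
      refine mul_nonpos_of_nonneg_of_nonpos (h.A0 i j) ?_
      split_ifs with e1 e2 e2
      · simp
      · have := h2 j i e1 e2
        unfold cs at *; linarith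
      · linarith [h2 i j e2 e1]
      · simp) (by simp only [sum_neg_distrib]; linarith) i j
    rw [if_pos a, if_neg b] at a2
    have a3 : A i j * cs c s i j = 0 := by linarith
    exact (mul_eq_zero.1 a3).resolve_right (h2 i j a b).ne
  have h4 : ∀ k l, sn c s k l = c k * c l * (s l / c l - s k / c k) := fun k l => by
    have := h3 k
    have := h3 l
    unfold sn; field_simp
  have h5 : s j / c j = s i / c i := by
    refine h.cut (by linarith) (fun k => s k / c k = s i / c i) (fun k l a b => ?_) rfl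
    have a1 := zero_of_sum (f := fun k l => A k l * (sn c s k l * (s l / c l - s k / c k)))
      (fun k l => mul_nonneg (h.A0 k l) (by
        rw [h4, mul_assoc]; exact mul_nonneg (mul_pos (h3 k) (h3 l)).le (mul_self_nonneg _)))
      (h.first fun k => s k / c k).le k l
    rw [h4, mul_assoc] at a1
    exact (mul_eq_zero.1 a1).resolve_right (mul_pos (mul_pos (h3 k) (h3 l))
      (mul_self_pos.2 (sub_ne_zero.2 fun e => b (e.trans a)))).ne'
  have h6 : sn c s i j = 0 := by rw [h4, h5, sub_self, mul_zero]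
  have h7 : 0 < cs c s i j := by
    have a1 : 1 / 2 < c i ^ 2 := by linarith [h.unit i, h1 i]
    have a2 : 1 / 2 < c j ^ 2 := by linarith [h.unit j, h1 j]
    have a3 : 1 / 2 < c i * c j := by nlinarith [mul_pos (h3 i) (h3 j)]
    unfold cs
    nlinarith [h1 i, h1 j, sq_nonneg (s i + s j)]
  have := h.csn i j
  rw [h6] at this
  nlinarith

end Pool.Agent.H.MP_2fe47b_co
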