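import Pool.Agent.H.MP_2fe47b_co.K1

namespace Pool.Agent.H.MP_2fe47b_co

open Finset

variable {V : Type} [Fintype V] {A : V → V → ℝ} {n ν κ : ℝ} {c s : V → ℝ}

theorem tot1 (c s : V → ℝ) : ∑ i, ∑ j, cs c s i j = (∑ i, c i) ^ 2 + (∑ i, s i) ^ 2 := by
  simp only [cs, sum_add_distrib, ← sum_mul_sum, sq]

theorem LM.dbl (h : LM A n ν c s) (i j : V) : 2 * cs c s i j ^ 2 - 1 =
    (c i ^ 2 - s i ^ 2) * (c j ^ 2 - s j ^ 2) + (2 * c i * s i) * (2 * c j * s j) := by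
  unfold cs
  linear_combination (c j ^ 2 + s j ^ 2) * h.unit i + h.unit j

theorem LM.tot2 (h : LM A n ν c s) : ∑ i, ∑ j, (2 * cs c s i j ^ 2 - 1) =
    (∑ i, (c i ^ 2 - s i ^ 2)) ^ 2 + (∑ i, 2 * c i * s i) ^ 2 := by
  simp only [h.dbl, sum_add_distrib, ← sum_mul_sum]
  ring

theorem small_ar (κ ρ α β : ℝ) (hκ : κ ^ 2 ≤ 1 / 1000) (hρ : ρ ^ 2 ≤ 16 / 100) (hα : α ≤ 1)
    (h : (1 + α ^ 2 + β ^ 2) / 2 - ρ ^ 2 ≤
      1 / 2 + 2 * κ ^ 2 - (3 - 12 * κ ^ 2) * (ρ ^ 2 * (1 - α))) :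
    ρ ^ 2 ≤ 4 * κ ^ 2 ∧ α ^ 2 + β ^ 2 ≤ 8 * κ ^ 2 := by
  have a0 := sq_nonneg ρ
  generalize ρ ^ 2 = r at *
  have a1 : (3 - 12 / 1000) * (r * (1 - α)) ≤ (3 - 12 * κ ^ 2) * (r * (1 - α)) :=
    mul_le_mul_of_nonneg_right (by linarith) (mul_nonneg a0 (by linarith))
  have a2 : r * r ≤ r * (16 / 100) := mul_le_mul_of_nonneg_left hρ a0
  constructor <;> nlinarith [sq_nonneg (α / 2 - 2988 / 1000 * r), sq_nonneg α, sq_nonneg β]

theorem LM.small (h : LM A n (1 / 4 + κ ^ 2) c s) (hκ : κ ^ 2 ≤ 1 / 1000) (hs : ∑ i, s i = 0)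
    (hc0 : 0 ≤ ∑ i, c i) (hc : ∑ i, c i ≤ 4 / 10 * n) :
    ∑ i, ∑ j, cs c s i j ≤ 4 * κ ^ 2 * n ^ 2 ∧
    ∑ i, ∑ j, (2 * cs c s i j ^ 2 - 1) ≤ 8 * κ ^ 2 * n ^ 2 ∧
    ∑ i, ∑ j, (1 - A i j) * (1 + cs c s i j) ≤ 6 * κ ^ 2 * n ^ 2 ∧
    (1 / 4 - 2 * κ ^ 2) * n ^ 2 ≤ ∑ i, ∑ j, (1 - A i j) := by
  have hn := h.pos
  have hn2 : 0 < n ^ 2 := by positivity
  obtain ⟨ρ, hρ⟩ : ∃ ρ, ∑ i, c i = ρ * n := ⟨(∑ i, c i) / n, by field_simp⟩
  obtain ⟨α, hα⟩ : ∃ α, ∑ i, (c i ^ 2 - s i ^ 2) = α * n :=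
    ⟨(∑ i, (c i ^ 2 - s i ^ 2)) / n, by field_simp⟩
  obtain ⟨β, hβ⟩ : ∃ β, ∑ i, 2 * c i * s i = β * n := ⟨(∑ i, 2 * c i * s i) / n, by field_simp⟩
  have t1 := tot1 c s
  have t2 := h.tot2
  rw [hs, hρ] at t1
  rw [hα, hβ] at t2
  have h0 : ((1 + α ^ 2 + β ^ 2) / 2 - ρ ^ 2) * n ^ 2 ≤
      ∑ i, ∑ j, (1 - A i j) * (cs c s i j ^ 2 - cs c s i j) := by
    have : ∑ i, ∑ j, (1 - A i j) * (cs c s i j ^ 2 - cs c s i j) =
        ∑ i, ∑ j, (A i j * (cs c s i j - cs c s i j ^ 2) +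
          (1 / 2 * (2 * cs c s i j ^ 2 - 1) + 1 / 2 + -1 * cs c s i j)) :=
      sum_congr rfl fun i _ => sum_congr rfl fun j _ => by ring
    simp only [this, sum_add_distrib, ← mul_sum, h.one]
    linarith [h.Q]
  have hS : ∑ i, s i ^ 2 = (n - α * n) / 2 := by
    have : ∑ i, (c i ^ 2 - s i ^ 2) = ∑ i, (1 - 2 * s i ^ 2) :=
      sum_congr rfl fun i _ => by linarith [h.unit i]
    rw [hα, sum_sub_distrib, h.one, ← mul_sum] at this
    linarith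
  have h1 : ∑ i, ∑ j, (1 - A i j) * (cs c s i j ^ 2 - cs c s i j) ≤
      ∑ i, (2 * (1 / 4 + κ ^ 2) * n - (6 - 24 * κ ^ 2) * ρ ^ 2 * n * s i ^ 2) := by
    refine sum_le_sum fun i _ => ?_
    have a1 : ∑ j, (1 - A i j) * (cs c s i j ^ 2 - cs c s i j) ≤ ∑ j,
        ((2 + 24 * (ρ * s i) ^ 2) * (1 - A i j) + 12 * (ρ * s i) * ((1 - A i j) * sn c s i j)) := by
      refine sum_le_sum fun j _ => ?_
      have : cs c s i j ^ 2 - cs c s i j ≤ 2 + 24 * (ρ * s i) ^ 2 + 12 * (ρ * s i) * sn c s i j := by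
        nlinarith [h.csn i j, sq_nonneg (sn c s i j + 4 * (ρ * s i)), sq_nonneg (1 + cs c s i j)]
      linarith [mul_le_mul_of_nonneg_left this (h.B0 i j)]
    rw [sum_add_distrib, ← mul_sum, ← mul_sum, h.sig hs, hρ] at a1
    linarith [mul_le_mul_of_nonneg_left (h.deg i) (show 0 ≤ 2 + 24 * (ρ * s i) ^ 2 by positivity)]
  rw [sum_sub_distrib, h.one, ← mul_sum, hS] at h1
  have hρ0 : 0 ≤ ρ := le_of_mul_le_mul_right (by linarith) hn
  have hρ1 : ρ ≤ 4 / 10 := le_of_mul_le_mul_right (by linarith) hn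
  have hα1 : α ≤ 1 := le_of_mul_le_mul_right (by
    linarith [sum_nonneg fun i (_ : i ∈ univ) => sq_nonneg (s i)]) hn
  obtain ⟨b1, b2⟩ := small_ar κ ρ α β hκ (by nlinarith) hα1
    (le_of_mul_le_mul_right (by linarith) hn2)
  have b3 := mul_le_mul_of_nonneg_right b1 hn2.le
  have b4 := mul_le_mul_of_nonneg_right b2 hn2.le
  have h2 : ∑ i, ∑ j, (1 - A i j) * (cs c s i j ^ 2 - cs c s i j) ≤
      ∑ i, ∑ j, (2 * (1 - A i j) + -1 * ((1 - A i j) * (1 + cs c s i j))) := by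
    refine sum_le_sum fun i _ => sum_le_sum fun j _ => ?_
    have : cs c s i j ^ 2 ≤ 1 := by nlinarith [h.csn i j, sq_nonneg (sn c s i j)]
    linarith [mul_le_mul_of_nonneg_left this (h.B0 i j)]
  simp only [sum_add_distrib, ← mul_sum] at h2
  have h3 := sum_le_sum (s := univ) fun i _ => h.deg i
  rw [h.one] at h3
  have h4 : 0 ≤ ∑ i, ∑ j, (1 - A i j) * (1 + cs c s i j) :=
    sum_nonneg fun i _ => sum_nonneg fun j _ => mul_nonneg (h.B0 i j) (by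
      nlinarith [h.csn i j, sq_nonneg (sn c s i j)])
  have h5 := mul_nonneg (add_nonneg (sq_nonneg α) (sq_nonneg β)) hn2.le
  refine ⟨by linarith, by linarith, by linarith, by linarith⟩

theorem pw (p q r t u : ℝ) (hp : p ^ 2 ≤ 1) (hq : -1 ≤ q) (hr : -1 ≤ r)
    (h : 1 - p ≤ 2 * (1 + q) + 2 * (1 + r)) (ht : t = 0 ∨ t = 1) (hu : u = 0 ∨ u = 1) :
    4 * p ^ 2 * (1 - p ^ 2) ≤ 2 + 2 * (2 * p ^ 2 - 1) + -4 * (1 - t) + -4 * (1 - u) +
      32 * ((1 - t) * (1 + p) + (1 - u) * (1 + q) + (1 + r)) := by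
  have h1 : -1 ≤ p := by nlinarith
  have h2 : p ≤ 1 := by nlinarith
  rcases ht with rfl | rfl <;> rcases hu with rfl | rfl <;>
    nlinarith [sq_nonneg (p ^ 2), sq_nonneg (1 - p ^ 2), sq_nonneg (1 - p), sq_nonneg (1 + p)]

theorem LM.near (h : LM A n (1 / 4 + κ ^ 2) c s) (hκ0 : 0 < κ) (hκ : κ ≤ 1 / 1000)
    (h2 : ∑ i, ∑ j, (2 * cs c s i j ^ 2 - 1) ≤ 8 * κ ^ 2 * n ^ 2)
    (h3 : ∑ i, ∑ j, (1 - A i j) * (1 + cs c s i j) ≤ 6 * κ ^ 2 * n ^ 2)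
    (h4 : (1 / 4 - 2 * κ ^ 2) * n ^ 2 ≤ ∑ i, ∑ j, (1 - A i j)) :
    ∃ a, ∑ j, 4 * cs c s a j ^ 2 * (1 - cs c s a j ^ 2) ≤ 17 * κ * n := by
  by_contra h0
  push Not at h0
  have hn := h.pos
  have hκn : 0 < κ * n := by positivity
  have hc1 : ∀ i j, cs c s i j ^ 2 ≤ 1 := fun i j => by
    nlinarith [h.csn i j, sq_nonneg (sn c s i j)]
  have hc2 : ∀ i j, -1 ≤ cs c s i j := fun i j => by nlinarith [hc1 i j]
  have hX : ∀ a, ∑ j, (2 * cs c s a j ^ 2 - 1) ≤ 3 * κ * n := fun a => by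
    rw [h.tot2] at h2
    simp only [h.dbl, sum_add_distrib, ← mul_sum]
    have e : (c a ^ 2 - s a ^ 2) ^ 2 + (2 * c a * s a) ^ 2 = 1 := by
      linear_combination (c a ^ 2 + s a ^ 2 + 1) * h.unit a
    generalize c a ^ 2 - s a ^ 2 = x at *
    generalize 2 * c a * s a = y at *
    generalize ∑ i, (c i ^ 2 - s i ^ 2) = u at *
    generalize ∑ i, 2 * c i * s i = v at *
    refine le_of_sq_le_sq ?_ (by positivity)
    have : (x * u + y * v) ^ 2 + (x * v - y * u) ^ 2 = u ^ 2 + v ^ 2 := by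
      linear_combination (u ^ 2 + v ^ 2) * e
    nlinarith [sq_nonneg (x * v - y * u), sq_nonneg (κ * n)]
  obtain ⟨b, hb⟩ : ∃ b : V → ℝ, ∀ i, b i = ∑ j, (1 - A i j) := ⟨_, fun _ => rfl⟩
  obtain ⟨e, he⟩ : ∃ e : V → ℝ, ∀ i, e i = ∑ j, (1 - A i j) * (1 + cs c s i j) := ⟨_, fun _ => rfl⟩
  have h5 : ∀ x y, (1 - A x y) * (17 * κ * n) ≤ (2 * n + 6 * κ * n) * (1 - A x y) +
      (1 - A x y) * (32 * e x - 4 * b x) + (1 - A y x) * (32 * e y - 4 * b y) +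
      32 * n * ((1 - A x y) * (1 + cs c s x y)) := by
    intro x y
    have a1 := sum_le_sum (s := univ) fun j _ => pw (cs c s x j) (cs c s y j) (cs c s x y) (A x j)
      (A y j) (hc1 _ _) (hc2 _ _) (hc2 _ _) (by
        unfold cs
        nlinarith [h.unit x, h.unit y, h.unit j, sq_nonneg (c j + 2 * c y + c x),
          sq_nonneg (s j + 2 * s y + s x)]) (h.zo _ _) (h.zo _ _)
    simp only [sum_add_distrib, ← mul_sum, ← hb, ← he, h.one] at a1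
    have a2 : 17 * κ * n ≤ (2 * n + 6 * κ * n) + (32 * e x - 4 * b x) + (32 * e y - 4 * b y) +
      32 * n * (1 + cs c s x y) := by linarith [h0 x, hX x]
    rw [h.symm y x]
    linarith [mul_le_mul_of_nonneg_left a2 (h.B0 x y)]
  have h6 := sum_le_sum (s := univ) fun x _ => sum_le_sum (s := univ) fun y _ => h5 x y
  simp only [sum_add_distrib] at h6
  rw [sum_comm (f := fun x y => (1 - A y x) * _)] at h6
  simp only [← sum_mul, ← mul_sum, ← hb, ← he] at h6 h3 h4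
  have h7 : ∑ x, b x * (32 * e x - 4 * b x) ≤
      ∑ x, (9 * n * e x - 2 * n * b x + n ^ 2 / 4) := by
    refine sum_le_sum fun x _ => ?_
    have a1 : 0 ≤ e x := by
      rw [he]; exact sum_nonneg fun j _ => mul_nonneg (h.B0 _ _) (by linarith [hc2 x j])
    have a2 : b x ≤ 26 / 100 * n := by
      rw [hb]; refine (h.deg x).trans (mul_le_mul_of_nonneg_right (by nlinarith) hn.le)
    nlinarith [mul_le_mul_of_nonneg_right a2 a1, sq_nonneg (b x - n / 4), mul_nonneg hn.le a1]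
  rw [sum_add_distrib, sum_sub_distrib, ← mul_sum, ← mul_sum, h.one] at h7
  have a1 := mul_le_mul_of_nonneg_left h3 hn.le
  have a2 := mul_le_mul_of_nonneg_left h4 hn.le
  have a3 := mul_le_mul_of_nonneg_left h4 hκn.le
  have a4 : 0 < κ * n ^ 3 := by positivity
  have a5 := mul_le_mul_of_nonneg_left hκ a4.le
  have a6 := mul_le_mul_of_nonneg_left (show κ ^ 2 ≤ 1 / 1000 by nlinarith) a4.le
  nlinarith

def uc : Fin 4 → ℝ := ![1, 0, -1, 0]

def us : Fin 4 → ℝ := ![0, 1, 0, -1]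

theorem best (x y : ℝ) (h : x ^ 2 + y ^ 2 = 1) :
    ∃ t, 1 - 2 * x ^ 2 * (1 - x ^ 2) ≤ uc t * x + us t * y := by
  have key : ∀ x y : ℝ, x ^ 2 + y ^ 2 = 1 → 0 ≤ x → y ^ 2 ≤ x ^ 2 → 1 - 2 * x ^ 2 * y ^ 2 ≤ x := by
    intro x y h h0 h1
    have a1 : x ≤ 1 := by nlinarith
    have a2 : 1 - x ≤ y ^ 2 := by nlinarith
    nlinarith [mul_nonneg (sq_nonneg y) (show 0 ≤ 2 * x ^ 2 - 1 by linarith)]
  rw [show 1 - x ^ 2 = y ^ 2 by linarith]
  rcases le_total (y ^ 2) (x ^ 2) with h1 | h1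
  · rcases le_total 0 x with h2 | h2
    · exact ⟨0, by simpa [uc, us] using key x y h h2 h1⟩
    · exact ⟨2, by simpa [uc, us] using key (-x) y (by linarith) (by linarith) (by linarith)⟩
  · rcases le_total 0 y with h2 | h2
    · exact ⟨1, by have := key y x (by linarith) h2 h1; simp [uc, us]; linarith⟩
    · exact ⟨3, by
        have := key (-y) x (by linarith) (by linarith) (by linarith); simp [uc, us]; linarith⟩

theorem LM.str (h : LM A n ν c s) (a : V)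
    (ha : ∑ j, 4 * cs c s a j ^ 2 * (1 - cs c s a j ^ 2) ≤ 17 * κ * n) :
    ∃ (p q : ℝ) (k : V → Fin 4), p ^ 2 + q ^ 2 = 1 ∧
      (∀ i t, uc t * (p * c i + q * s i) + us t * (p * s i - q * c i) ≤
        uc (k i) * (p * c i + q * s i) + us (k i) * (p * s i - q * c i)) ∧
      ∑ i, (uc (k i) * (p * s i - q * c i) - us (k i) * (p * c i + q * s i)) = 0 ∧
      n - 9 * κ * n ≤ ∑ i, (uc (k i) * (p * c i + q * s i) + us (k i) * (p * s i - q * c i)) := by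
  classical
  obtain ⟨k, -, hk⟩ := exists_max_image (univ : Finset (V → Fin 4)) (fun k =>
    (∑ i, (uc (k i) * c i + us (k i) * s i)) ^ 2 + (∑ i, (uc (k i) * s i - us (k i) * c i)) ^ 2)
    univ_nonempty
  obtain ⟨p, q, h1, h2, h3, h4⟩ := dir (∑ i, (uc (k i) * c i + us (k i) * s i))
    (∑ i, (uc (k i) * s i - us (k i) * c i))
  have e : ∀ (p q : ℝ) (k : V → Fin 4), ∑ i, (uc (k i) * (p * c i + q * s i) +
      us (k i) * (p * s i - q * c i)) = p * ∑ i, (uc (k i) * c i + us (k i) * s i) +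
        q * ∑ i, (uc (k i) * s i - us (k i) * c i) := fun p q k => by
    rw [mul_sum, mul_sum, ← sum_add_distrib]
    exact sum_congr rfl fun i _ => by ring
  have h5 : ∀ (p' q' : ℝ) (k' : V → Fin 4), p' ^ 2 + q' ^ 2 = 1 →
      ∑ i, (uc (k' i) * (p' * c i + q' * s i) + us (k' i) * (p' * s i - q' * c i)) ≤
      ∑ i, (uc (k i) * (p * c i + q * s i) + us (k i) * (p * s i - q * c i)) := by
    intro p' q' k' h6
    rw [e, e]
    refine le_of_sq_le_sq ?_ h3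
    have := hk k' (mem_univ _)
    beta_reduce at this
    generalize ∑ i, (uc (k' i) * c i + us (k' i) * s i) = u at *
    generalize ∑ i, (uc (k' i) * s i - us (k' i) * c i) = v at *
    have : (p' * u + q' * v) ^ 2 + (p' * v - q' * u) ^ 2 = u ^ 2 + v ^ 2 := by
      linear_combination (u ^ 2 + v ^ 2) * h6
    nlinarith [sq_nonneg (p' * v - q' * u)]
  refine ⟨p, q, k, h1, fun i t => ?_, ?_, ?_⟩
  · have := h5 p q (Function.update k i t) h1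
    rw [← add_sum_erase _ _ (mem_univ i), ← add_sum_erase univ _ (mem_univ i),
      Function.update_self, sum_congr rfl fun j hj => by
        rw [Function.update_of_ne (mem_erase.1 hj).1]] at this
    linarith
  · rw [← h2, mul_sum, mul_sum, ← sum_sub_distrib]
    exact sum_congr rfl fun i _ => by ring
  · choose k0 hk0 using fun j => best (cs c s a j) (sn c s a j) (h.csn a j)
    refine le_trans ?_ (h5 (c a) (s a) k0 (h.unit a))
    have a1 : ∑ j, (1 + -(1 / 2) * (4 * cs c s a j ^ 2 * (1 - cs c s a j ^ 2))) ≤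
        ∑ j, (uc (k0 j) * cs c s a j + us (k0 j) * sn c s a j) :=
      sum_le_sum fun j _ => by linarith [hk0 j]
    rw [sum_add_distrib, h.one, ← mul_sum] at a1
    have a2 : 0 ≤ ∑ j, 4 * cs c s a j ^ 2 * (1 - cs c s a j ^ 2) :=
      sum_nonneg fun j _ => mul_nonneg (by positivity)
        (by nlinarith [h.csn a j, sq_nonneg (sn c s a j)])
    exact le_trans (by linarith) a1

end Pool.Agent.H.MP_2fe47b_co
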