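import Pool.Agent.H.MP_2fe47b_co.K2

namespace Pool.Agent.H.MP_2fe47b_co

open Finset

def Vx (C S : ℝ) : Prop := C ^ 2 + S ^ 2 = 1 ∧ 0 ≤ C ∧ S ^ 2 ≤ 1 / 2

def f0 (C S : ℝ) : ℝ := C - C ^ 2 + S * (2 - C) * S

def f1 (C S : ℝ) : ℝ := S - S ^ 2 - S * (2 - C) * C

noncomputable def Fp (g e C S : ℝ) : ℝ :=
  (g ^ 2 + g) / 2 * f0 C S + (e ^ 2 + e) / 2 * f1 C S + (e ^ 2 - e) / 2 * f1 C (-S)

def Kr (x y h h' : ℝ) : ℝ := x - x ^ 2 + y * (h' - h)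

variable {C S C' S' : ℝ}

theorem pr {u v p q : ℝ} (hu : |u| ≤ p) (hv : |v| ≤ q) : -(p * q) ≤ u * v ∧ u * v ≤ p * q :=
  abs_le.1 (by rw [abs_mul]; exact mul_le_mul hu hv (abs_nonneg _) ((abs_nonneg _).trans hu))

theorem Vx.a (h : Vx C S) : 0 ≤ 1 - C ∧ 1 - C ≤ S ^ 2 ∧ 1 - C ≤ 3 / 10 ∧ S ^ 2 ≤ 2 * (1 - C) := by
  obtain ⟨h1, h2, h3⟩ := h
  have a1 : C ≤ 1 := by nlinarith
  refine ⟨by linarith, by nlinarith, by nlinarith, by nlinarith⟩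

theorem Vx.b (h : Vx C S) : |1 - C| ≤ |S| ^ 2 ∧ |S ^ 2| ≤ |S| ^ 2 ∧ |S| ^ 2 ≤ |S| ∧ |C * S| ≤ |S| ∧
    |S * (2 - C) * C| ≤ |S| ∧ |C * S - S| ≤ |S| ^ 2 ∧ |S * (2 - C) * C - S| ≤ |S| ^ 2 ∧
    |S * (2 - C) * S| ≤ 2 * |S| ^ 2 := by
  obtain ⟨a1, a2, a3, -⟩ := h.a
  obtain ⟨h1, h2, h3⟩ := h
  have x0 := abs_nonneg S
  have x2 := sq_abs S
  have x1 : |S| ≤ 1 := by nlinarith
  refine ⟨by rw [abs_of_nonneg a1]; linarith, by rw [abs_pow], by nlinarith, ?_, ?_, ?_, ?_, ?_⟩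
  · rw [abs_mul, abs_of_nonneg h2]; nlinarith
  · rw [mul_assoc, abs_mul, abs_of_nonneg (mul_nonneg (by linarith) h2)]
    nlinarith [mul_nonneg x0 (sq_nonneg (1 - C))]
  · rw [show C * S - S = -((1 - C) * S) by ring, abs_neg, abs_mul, abs_of_nonneg a1]
    nlinarith
  · rw [show S * (2 - C) * C - S = -((1 - C) * (1 - C) * S) by ring, abs_neg, abs_mul,
      abs_of_nonneg (mul_nonneg a1 a1)]
    nlinarith [mul_nonneg a1 x0, mul_nonneg (mul_nonneg a1 a1) x0, mul_le_mul_of_nonneg_left x1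
      (mul_nonneg a1 a1)]
  · rw [show S * (2 - C) * S = S ^ 2 * (2 - C) by ring,
      abs_of_nonneg (mul_nonneg (sq_nonneg S) (by linarith))]
    nlinarith [mul_nonneg (sq_nonneg S) h2]

theorem Vx.f (h : Vx C S) : 0 ≤ f0 C S ∧ f0 C S ≤ 3 * S ^ 2 ∧ |f1 C S| ≤ 122 / 100 * S ^ 2 ∧
    |f1 C (-S)| ≤ 122 / 100 * S ^ 2 ∧ f0 C S + f1 C S + f1 C (-S) ≤ -(S ^ 2 / 4) := by
  obtain ⟨a1, a2, a3, a4⟩ := h.a
  obtain ⟨h1, h2, h3⟩ := h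
  have a5 : |S| ≤ 71 / 100 := abs_le_of_sq_le_sq' (by nlinarith) (by norm_num) |> abs_le.2
  have a6 : |(1 - C) * (1 - C)| ≤ 3 / 10 * S ^ 2 := by
    rw [abs_of_nonneg (mul_nonneg a1 a1)]; nlinarith
  have a7 := pr a5 a6
  have a8 := sq_nonneg S
  unfold f0 f1
  refine ⟨by nlinarith [mul_nonneg h2 a1, mul_nonneg a8 a1], by nlinarith [mul_nonneg h2 a8],
    abs_le.2 ⟨by linarith [a7.1], by linarith [a7.2]⟩,
    abs_le.2 ⟨by linarith [a7.2], by linarith [a7.1]⟩, ?_⟩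
  have e : C * (C ^ 2 + S ^ 2 - 1) = 0 := by rw [h1]; ring
  nlinarith [mul_nonneg a1 (show 0 ≤ C ^ 2 - 1 / 2 by linarith)]

theorem case0 (h : Vx C S) (h' : Vx C' S') :
    Kr (C * C' + S * S') (C * S' - S * C') (S * (2 - C)) (S' * (2 - C')) ≤
      f0 C S + f0 C' S' - 3 * (S * S') + 8 * (|S| ^ 2 * |S'| + |S| * |S'| ^ 2) := by
  obtain ⟨a1, a2, a3, a4, a5, a6, a7, a8⟩ := h.b
  obtain ⟨b1, b2, b3, b4, b5, b6, b7, b8⟩ := h'.b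
  have e1 : (C ^ 2 + S ^ 2 - 1) * (C' ^ 2 - 1) = 0 := by rw [h.1]; ring
  have e2 : S ^ 2 * (C' ^ 2 + S' ^ 2 - 1) = 0 := by rw [h'.1]; ring
  have p0 : 0 ≤ |S| * |S'| ^ 2 := by positivity
  unfold Kr f0
  linarith [(pr a1 (b1.trans b3)).2, (pr a2 (b2.trans b3)).1, (pr a6 b4).1,
    (pr (le_refl |S|) b6).1, (pr a7 (le_refl |S'|)).1, (pr (le_refl |S|) b7).1,
    (pr a8 (b1.trans b3)).1, (pr (a1.trans a3) b8).1]

theorem case1 (h : Vx C S) (h' : Vx C' S') :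
    Kr (-(C * S' - S * C')) (C * C' + S * S') (S * (2 - C)) (S' * (2 - C')) ≤
      f1 C S + f1 C' (-S') + 2 * (S * S') + 8 * (|S| ^ 2 * |S'| + |S| * |S'| ^ 2) := by
  obtain ⟨a1, a2, a3, a4, a5, a6, a7, a8⟩ := h.b
  obtain ⟨b1, b2, b3, b4, b5, b6, b7, b8⟩ := h'.b
  have e1 : (C ^ 2 + S ^ 2 - 1) * S' ^ 2 = 0 := by rw [h.1]; ring
  have e2 : S ^ 2 * (C' ^ 2 + S' ^ 2 - 1) = 0 := by rw [h'.1]; ring
  have p0 : 0 ≤ |S| * |S'| ^ 2 := by positivity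
  unfold Kr f1
  linarith [(pr a1 (le_refl |S'|)).2, (pr (le_refl |S|) b1).1, (pr a2 (b2.trans b3)).2,
    (pr a6 b4).2, (pr (le_refl |S|) b6).2, (pr a5 b1).2, (pr a8 (le_refl |S'|)).1,
    (pr a1 b5).1, (pr (le_refl |S|) b8).2]

theorem case2 (h : Vx C S) (h' : Vx C' S') :
    Kr (-(C * C' + S * S')) (-(C * S' - S * C')) (S * (2 - C)) (S' * (2 - C')) ≤
      -(17 / 10) + 12 * (|S| * |S'|) := by
  obtain ⟨a1, a2, a3, a4, a5, a6, a7, a8⟩ := h.b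
  obtain ⟨b1, b2, b3, b4, b5, b6, b7, b8⟩ := h'.b
  have e1 : (C ^ 2 + S ^ 2 - 1) * (C' ^ 2 - 1) = 0 := by rw [h.1]; ring
  have e2 : S ^ 2 * (C' ^ 2 + S' ^ 2 - 1) = 0 := by rw [h'.1]; ring
  have key : ∀ {C S : ℝ}, Vx C S → -C - C ^ 2 - S * (2 - C) * S ≤ -(185 / 100) := by
    intro C S h
    have e : (2 - C) * (C ^ 2 + S ^ 2 - 1) = 0 := by rw [h.1]; ring
    nlinarith [mul_nonneg (sq_nonneg (C - 2 / 3)) h.2.1, sq_nonneg (C - 2 / 3)]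
  have a9 : |S * (2 - C) * S| ≤ 2 * |S| := by linarith
  have b9 : |S' * (2 - C') * S'| ≤ 2 * |S'| := by linarith
  unfold Kr
  linarith [key h, key h', (pr (a1.trans a3) (b1.trans b3)).1, (pr (le_refl |S|) (le_refl |S'|)).1,
    (pr (a2.trans a3) (b2.trans b3)).1, (pr a4 b4).1, (pr a5 (le_refl |S'|)).2,
    (pr (le_refl |S|) b5).2, (pr a9 (b1.trans b3)).2, (pr (a1.trans a3) b9).2]

theorem master (h : Vx C S) (h' : Vx C' S') (g e a : ℝ)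
    (hg : (g = 1 ∧ e = 0) ∨ (g = 0 ∧ e = 1) ∨ (g = -1 ∧ e = 0) ∨ (g = 0 ∧ e = -1))
    (ha : a = 0 ∨ a = 1) :
    a * Kr (g * (C * C' + S * S') - e * (C * S' - S * C'))
      (g * (C * S' - S * C') + e * (C * C' + S * S')) (S * (2 - C)) (S' * (2 - C')) ≤
      Fp g e C S + Fp g (-e) C' S' + (-3 * ((g ^ 2 + g) / 2) + 2 * e ^ 2) * (S * S') +
      8 * (|S| ^ 2 * |S'| + |S| * |S'| ^ 2) +
      122 / 100 * ((1 - a) * (1 - (g ^ 2 - g) / 2) * S ^ 2) +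
      122 / 100 * ((1 - a) * (1 - (g ^ 2 - g) / 2) * S' ^ 2) + -(17 / 10) * (a * ((g ^ 2 - g) / 2)) +
      12 * (((1 - a) * (1 - (g ^ 2 - g) / 2) + a * ((g ^ 2 - g) / 2)) * (|S| * |S'|)) := by
  have c0 := case0 h h'
  have c1 := case1 h h'
  have c2 := case2 h h'
  have c3 := case1 h' h
  obtain ⟨a1, -, a2, a3, -⟩ := h.f
  obtain ⟨b1, -, b2, b3, -⟩ := h'.f
  rw [abs_le] at a2 a3 b2 b3
  have p0 : 0 ≤ |S| * |S'| ^ 2 := by positivity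
  have p1 : 0 ≤ |S| ^ 2 * |S'| := by positivity
  have p2 : 0 ≤ |S| * |S'| := by positivity
  have p3 := pr (le_refl |S|) (le_refl |S'|)
  have p4 := sq_nonneg S
  have p5 := sq_nonneg S'
  unfold Kr at *
  rcases ha with rfl | rfl <;> rcases hg with ⟨rfl, rfl⟩ | ⟨rfl, rfl⟩ | ⟨rfl, rfl⟩ | ⟨rfl, rfl⟩ <;>
    simp only [Fp, neg_neg] <;> linarith [a2.1, a3.1, b2.1, b3.1, p3.1, p3.2]

theorem four (a b : Fin 4) : ((uc a * uc b + us a * us b = 1 ∧ uc a * us b - us a * uc b = 0) ∨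
    (uc a * uc b + us a * us b = 0 ∧ uc a * us b - us a * uc b = 1) ∨
    (uc a * uc b + us a * us b = -1 ∧ uc a * us b - us a * uc b = 0) ∨
    (uc a * uc b + us a * us b = 0 ∧ uc a * us b - us a * uc b = -1)) ∧
    (uc a * uc b + us a * us b) ^ 2 = 1 / 2 + 1 / 2 * ((uc a ^ 2 - us a ^ 2) * (uc b ^ 2 - us b ^ 2)) ∧
    (uc a * us b - us a * uc b) ^ 2 =
      1 / 2 + -(1 / 2) * ((uc a ^ 2 - us a ^ 2) * (uc b ^ 2 - us b ^ 2)) := by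
  fin_cases a <;> fin_cases b <;> simp [uc, us] <;> norm_num

theorem unit4 (a : Fin 4) : uc a ^ 2 + us a ^ 2 = 1 ∧ uc a * us a = 0 ∧ |uc a| ≤ 1 ∧ |us a| ≤ 1 ∧
    |uc a ^ 2 - us a ^ 2| ≤ 1 := by
  fin_cases a <;> simp [uc, us]

end Pool.Agent.H.MP_2fe47b_co
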