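import Pool.Agent.H.MP_2fe47b_co.K3

namespace Pool.Agent.H.MP_2fe47b_co

open Finset Filter Topology

variable {V : Type} [Fintype V] {A : V → V → ℝ} {n ν κ : ℝ} {c s : V → ℝ}

theorem near_sum (f g r : V → ℝ) (h : ∀ i, |f i - g i| ≤ r i) (a : ℝ) (ha : |∑ i, g i| ≤ a) :
    |∑ i, f i| ≤ a + ∑ i, r i := by
  have h1 := (abs_sum_le_sum_abs _ _).trans (sum_le_sum (s := univ) fun i _ => h i)
  rw [sum_sub_distrib] at h1
  linarith [abs_sub_abs_le_abs_sub (∑ i, f i) (∑ i, g i)]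

theorem fp_ar {C S : ℝ} (h : Vx C S) (m d p q r : ℝ) (hm : 0 ≤ m) (hp : |p - m| ≤ d)
    (hq : |q - m| ≤ d) (hr : |r - m| ≤ d) :
    p * f0 C S + q * f1 C S + r * f1 C (-S) ≤ (6 * d - m / 4) * S ^ 2 := by
  obtain ⟨a1, a2, a3, a4, a5⟩ := h.f
  have a6 : |f0 C S| ≤ 3 * S ^ 2 := by rwa [abs_of_nonneg a1]
  have hd := mul_nonneg ((abs_nonneg _).trans hp) (sq_nonneg S)
  linarith [(pr hp a6).2, (pr hq a3).2, (pr hr a4).2, mul_le_mul_of_nonneg_left a5 hm]

def xs : Fin 4 → ℝ := ![0, 1, 2, 0]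

def ls (a b : ℝ) : Fin 4 → ℝ := ![0, b - a, 2 * b - 2 * a, -b]

theorem third (τ : ℝ) (a b : Fin 4) : (uc a * uc b + us a * us b = -1 ∧
    uc a * us b - us a * uc b = 0) ∨
    (uc a * uc b + us a * us b) * (1 - Real.cos (τ * (xs b - xs a))) +
      (uc a * us b - us a * uc b) * Real.sin (τ * (xs b - xs a)) =
    (2 * Real.sin τ - Real.sin (τ * 2)) / 4 * (uc a * us b - us a * uc b) ^ 2 +
    -1 * ((uc a * us b - us a * uc b) *
      (ls (Real.sin τ) ((2 * Real.sin τ - Real.sin (τ * 2)) / 4) b -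
        ls (Real.sin τ) ((2 * Real.sin τ - Real.sin (τ * 2)) / 4) a)) := by
  have e1 : (2 : ℝ) - 1 = 1 := by norm_num
  have e2 : (1 : ℝ) - 2 = -1 := by norm_num
  fin_cases a <;> fin_cases b <;> simp [uc, us, xs, ls, e1, e2] <;> ring

theorem LM.exact (h : LM A n ν c s) (k : V → Fin 4) (hc : ∀ i, c i = uc (k i))
    (hs : ∀ i, s i = us (k i))
    (h0 : ∀ i j, A i j * ((cs c s i j ^ 2 - cs c s i j) / 2) = 0) (i j : V) :
    A i j * sn c s i j ^ 2 = 0 := by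
  have h1 : ∀ᶠ τ in 𝓝[<] (0 : ℝ), τ ∈ Set.Ioo (-1 : ℝ) 0 := Ioo_mem_nhdsLT (by norm_num)
  obtain ⟨τ, h2, h3, h4⟩ :=
    (((h.loc fun i => xs (k i)).filter_mono nhdsWithin_le_nhds).and h1).exists
  have h5 : (2 * Real.sin τ - Real.sin (τ * 2)) / 4 < 0 := by
    have a1 : Real.sin τ < 0 := Real.sin_neg_of_neg_of_neg_pi_lt h4 (by linarith [Real.pi_gt_three])
    have a2 : Real.cos τ < 1 := by nlinarith [Real.sin_sq_add_cos_sq τ, Real.cos_le_one τ]
    rw [mul_comm τ, Real.sin_two_mul]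
    nlinarith
  have h6 : dE A c s (fun i => xs (k i)) τ = ∑ i, ∑ j,
      ((2 * Real.sin τ - Real.sin (τ * 2)) / 4 * (A i j * sn c s i j ^ 2) + -1 * (A i j *
        (sn c s i j * (ls (Real.sin τ) ((2 * Real.sin τ - Real.sin (τ * 2)) / 4) (k j) -
        ls (Real.sin τ) ((2 * Real.sin τ - Real.sin (τ * 2)) / 4) (k i))))) := by
    refine sum_congr rfl fun i _ => sum_congr rfl fun j _ => ?_
    have a1 := h0 i j
    simp only [cs, sn, hc, hs] at a1 ⊢
    rcases third τ (k i) (k j) with e | e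
    · rw [e.1] at a1
      have : A i j = 0 := by linarith
      rw [this]; ring
    · rw [e]; ring
  simp only [sum_add_distrib, ← mul_sum] at h6
  rw [h.first fun i => ls _ _ (k i)] at h6
  refine zero_of_sum (f := fun i j => A i j * sn c s i j ^ 2)
    (fun i j => mul_nonneg (h.A0 i j) (sq_nonneg _)) ?_ i j
  by_contra h7
  have := mul_neg_of_neg_of_pos h5 (not_le.1 h7)
  have h8 : 0 ≤ dE A c s (fun i => xs (k i)) τ := h2
  linarith

theorem LM.rigid (h : LM A n (1 / 4 + κ ^ 2) c s) (hκ0 : 0 ≤ κ) (hκ : κ ≤ 1 / 10 ^ 16)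
    (k : V → Fin 4) (hk : ∀ i t, uc t * c i + us t * s i ≤ uc (k i) * c i + us (k i) * s i)
    (hS0 : ∑ i, (uc (k i) * s i - us (k i) * c i) = 0)
    (hC0 : n - 9 * κ * n ≤ ∑ i, (uc (k i) * c i + us (k i) * s i))
    (I1 : ∑ i, ∑ j, cs c s i j ≤ 4 * κ ^ 2 * n ^ 2)
    (I2 : ∑ i, ∑ j, (2 * cs c s i j ^ 2 - 1) ≤ 8 * κ ^ 2 * n ^ 2) : False := by
  have hn := h.pos
  have hκn := mul_le_mul_of_nonneg_right hκ hn.le
  have hκn0 := mul_nonneg hκ0 hn.le
  have hκ2 : κ ^ 2 * n ≤ 1 / 10 ^ 16 * n := mul_le_mul_of_nonneg_right (by nlinarith) hn.le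
  obtain ⟨C, hC⟩ : ∃ C : V → ℝ, ∀ i, uc (k i) * c i + us (k i) * s i = C i := ⟨_, fun _ => rfl⟩
  obtain ⟨S, hS⟩ : ∃ S : V → ℝ, ∀ i, uc (k i) * s i - us (k i) * c i = S i := ⟨_, fun _ => rfl⟩
  simp only [hC, hS] at hk hS0 hC0
  have hc : ∀ i, c i = uc (k i) * C i - us (k i) * S i := fun i => by
    rw [← hC, ← hS]; linear_combination (-c i) * (unit4 (k i)).1
  have hs : ∀ i, s i = us (k i) * C i + uc (k i) * S i := fun i => by
    rw [← hC, ← hS]; linear_combination (-s i) * (unit4 (k i)).1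
  have hV : ∀ i, Vx (C i) (S i) := fun i => by
    have a0 : C i ^ 2 + S i ^ 2 = 1 := by
      rw [← hC, ← hS]; linear_combination (c i ^ 2 + s i ^ 2) * (unit4 (k i)).1 + h.unit i
    have a1 := hk i 0
    have a2 := hk i 1
    have a3 := hk i 2
    have a4 := hk i 3
    simp [uc, us] at a1 a2 a3 a4
    exact ⟨a0, by linarith, by nlinarith [h.unit i]⟩
  obtain ⟨v, hv⟩ : ∃ v, ∑ i, S i ^ 2 = v * n := ⟨(∑ i, S i ^ 2) / n, by field_simp⟩
  have hv0 : 0 ≤ v * n := hv ▸ sum_nonneg fun i _ => sq_nonneg _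
  have hA : ∑ i, (1 - C i) ≤ 9 * κ * n := by rw [sum_sub_distrib, h.one]; linarith
  have hv1 : v * n ≤ 18 * κ * n := by
    have := sum_le_sum (s := univ) fun i _ => (hV i).a.2.2.2
    rw [← mul_sum, hv] at this; linarith
  have hX : ∑ i, |S i| ≤ n / 10 ^ 7 := by
    have : ∑ i, |S i| ≤ ∑ i, (1 / 10 ^ 7 / 2 + 10 ^ 7 / 2 * S i ^ 2) := sum_le_sum fun i _ => by
      nlinarith [sq_abs (S i), sq_nonneg (|S i| - 1 / 10 ^ 7)]
    rw [sum_add_distrib, h.one, ← mul_sum, hv] at this; linarith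
  rw [tot1] at I1
  rw [h.tot2] at I2
  have m1 : |∑ i, uc (k i)| ≤ 2 / 10 ^ 7 * n := by
    have := near_sum (fun i => uc (k i)) c (fun i => (1 - C i) + |S i|) (fun i => by
      obtain ⟨-, -, a1, a2, -⟩ := unit4 (k i)
      have a3 := pr a1 (abs_of_nonneg (hV i).a.1).le
      have a4 := pr a2 (le_refl |S i|)
      rw [hc i, abs_le]; constructor <;> linarith [a3.1, a3.2, a4.1, a4.2]) (2 * κ * n)
      (abs_le.2 (abs_le_of_sq_le_sq' (by linarith [sq_nonneg (∑ i, s i)]) (by linarith)))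
    rw [sum_add_distrib] at this; linarith
  have m2 : |∑ i, us (k i)| ≤ 2 / 10 ^ 7 * n := by
    have := near_sum (fun i => us (k i)) s (fun i => (1 - C i) + |S i|) (fun i => by
      obtain ⟨-, -, a1, a2, -⟩ := unit4 (k i)
      have a3 := pr a2 (abs_of_nonneg (hV i).a.1).le
      have a4 := pr a1 (le_refl |S i|)
      rw [hs i, abs_le]; constructor <;> linarith [a3.1, a3.2, a4.1, a4.2]) (2 * κ * n)
      (abs_le.2 (abs_le_of_sq_le_sq' (by linarith [sq_nonneg (∑ i, c i)]) (by linarith)))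
    rw [sum_add_distrib] at this; linarith
  have m3 : |∑ i, (uc (k i) ^ 2 - us (k i) ^ 2)| ≤ 2 / 10 ^ 7 * n := by
    have := near_sum (fun i => uc (k i) ^ 2 - us (k i) ^ 2) (fun i => c i ^ 2 - s i ^ 2)
      (fun i => 2 * S i ^ 2) (fun i => by
      obtain ⟨-, a0, -, -, a1⟩ := unit4 (k i)
      have a3 := pr a1 (abs_of_nonneg (sq_nonneg (S i))).le
      have a4 : uc (k i) ^ 2 - us (k i) ^ 2 - (c i ^ 2 - s i ^ 2) =
          2 * ((uc (k i) ^ 2 - us (k i) ^ 2) * S i ^ 2) := by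
        rw [hc i, hs i]
        linear_combination 4 * C i * S i * a0 - (uc (k i) ^ 2 - us (k i) ^ 2) * (hV i).1
      rw [a4, abs_le]; constructor <;> linarith [a3.1, a3.2]) (3 * κ * n)
      (abs_le.2 (abs_le_of_sq_le_sq' (by
        linarith [sq_nonneg (∑ i, 2 * c i * s i), sq_nonneg (κ * n)]) (by linarith)))
    rw [← mul_sum, hv] at this; linarith
  obtain ⟨g, hg⟩ : ∃ g : V → V → ℝ, ∀ i j, uc (k i) * uc (k j) + us (k i) * us (k j) = g i j :=
    ⟨_, fun _ _ => rfl⟩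
  obtain ⟨e, he⟩ : ∃ e : V → V → ℝ, ∀ i j, uc (k i) * us (k j) - us (k i) * uc (k j) = e i j :=
    ⟨_, fun _ _ => rfl⟩
  have h4 := fun i j => four (k i) (k j)
  simp only [hg, he] at h4
  have gs : ∀ i j, g i j = g j i := fun i j => by rw [← hg, ← hg]; ring
  have es : ∀ i j, -e i j = e j i := fun i j => by rw [← he, ← he]; ring
  have G : ∀ i, |∑ j, (g i j ^ 2 + g i j) / 2 - n / 4| ≤ 3 / 10 ^ 7 * n ∧
      |∑ j, (g i j ^ 2 - g i j) / 2 - n / 4| ≤ 3 / 10 ^ 7 * n ∧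
      |∑ j, (e i j ^ 2 + e i j) / 2 - n / 4| ≤ 3 / 10 ^ 7 * n ∧
      |∑ j, (e i j ^ 2 - e i j) / 2 - n / 4| ≤ 3 / 10 ^ 7 * n := fun i => by
    obtain ⟨-, -, a1, a2, a3⟩ := unit4 (k i)
    have b1 := pr a1 m1
    have b2 := pr a2 m2
    have b3 := pr a1 m2
    have b4 := pr a2 m1
    have b5 := pr a3 m3
    have c1 : ∑ j, g i j = uc (k i) * ∑ j, uc (k j) + us (k i) * ∑ j, us (k j) := by
      simp only [← hg, sum_add_distrib, ← mul_sum]
    have c2 : ∑ j, e i j = uc (k i) * ∑ j, us (k j) - us (k i) * ∑ j, uc (k j) := by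
      simp only [← he, sum_sub_distrib, ← mul_sum]
    have c3 := sum_congr rfl fun j (_ : j ∈ univ) => (h4 i j).2.1
    have c4 := sum_congr rfl fun j (_ : j ∈ univ) => (h4 i j).2.2
    rw [sum_add_distrib, h.one, ← mul_sum, ← mul_sum] at c3 c4
    simp only [← sum_div, sum_add_distrib, abs_le]
    rw [sum_sub_distrib, sum_sub_distrib]
    refine ⟨⟨?_, ?_⟩, ⟨?_, ?_⟩, ⟨?_, ?_⟩, ?_, ?_⟩ <;>
      linarith [b1.1, b1.2, b2.1, b2.2, b3.1, b3.2, b4.1, b4.2, b5.1, b5.2]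
  have hcs : ∀ i j, cs c s i j = g i j * (C i * C j + S i * S j) - e i j * (C i * S j - S i * C j) :=
    fun i j => by unfold cs; rw [hc i, hc j, hs i, hs j, ← hg, ← he]; ring
  have hsn : ∀ i j, sn c s i j = g i j * (C i * S j - S i * C j) + e i j * (C i * C j + S i * S j) :=
    fun i j => by unfold sn; rw [hc i, hc j, hs i, hs j, ← hg, ← he]; ring
  have k0 : 0 ≤ ∑ i, ∑ j, A i j * Kr (cs c s i j) (sn c s i j) (S i * (2 - C i))
      (S j * (2 - C j)) := by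
    simp only [Kr, mul_add, sum_add_distrib]
    linarith [h.Q, h.first fun i => S i * (2 - C i)]
  simp only [hcs, hsn] at k0
  have k1 := k0.trans (sum_le_sum fun i _ => sum_le_sum fun j _ =>
    master (hV i) (hV j) _ _ _ (h4 i j).1 (h.zo i j))
  clear k0
  simp only [sum_add_distrib, ← mul_sum] at k1
  obtain ⟨o, ho⟩ : ∃ o : V → ℝ, ∀ i, ∑ j, A i j * ((g i j ^ 2 - g i j) / 2) = o i :=
    ⟨_, fun _ => rfl⟩
  have d0 : ∀ i j, 0 ≤ A i j * ((g i j ^ 2 - g i j) / 2) := fun i j => mul_nonneg (h.A0 i j) (by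
    rcases (h4 i j).1 with a | a | a | a <;> rw [a.1] <;> norm_num)
  have o0 : ∀ i, 0 ≤ o i := fun i => ho i ▸ sum_nonneg fun j _ => d0 i j
  have oO : 0 ≤ ∑ i, o i := sum_nonneg fun i _ => o0 i
  have t1 : ∑ i, ∑ j, Fp (g i j) (e i j) (C i) (S i) ≤ (18 / 10 ^ 7 * n - n / 16) * (v * n) := by
    rw [← hv, mul_sum]
    refine sum_le_sum fun i _ => ?_
    simp only [Fp, sum_add_distrib, ← sum_mul]
    linarith [fp_ar (hV i) (n / 4) _ _ _ _ (by linarith) (G i).1 (G i).2.2.1 (G i).2.2.2]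
  have t2 : ∑ i, ∑ j, Fp (g i j) (-e i j) (C j) (S j) = ∑ i, ∑ j, Fp (g i j) (e i j) (C i) (S i) := by
    rw [sum_comm]
    exact sum_congr rfl fun i _ => sum_congr rfl fun j _ => by rw [gs, es]
  have t3 : ∑ i, ∑ j, (-3 * ((g i j ^ 2 + g i j) / 2) + 2 * e i j ^ 2) * (S i * S j) ≤ 0 := by
    have : ∀ i j, (-3 * ((g i j ^ 2 + g i j) / 2) + 2 * e i j ^ 2) * (S i * S j) =
        1 / 4 * (S i * S j) + -(7 / 4) * (((uc (k i) ^ 2 - us (k i) ^ 2) * S i) *
          ((uc (k j) ^ 2 - us (k j) ^ 2) * S j)) + -(3 / 2) * ((uc (k i) * S i) * (uc (k j) * S j)) +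
          -(3 / 2) * ((us (k i) * S i) * (us (k j) * S j)) := fun i j => by
      rw [(h4 i j).2.1, (h4 i j).2.2, ← hg]; ring
    simp only [this, sum_add_distrib, ← mul_sum, ← sum_mul, hS0]
    linarith [mul_self_nonneg (∑ i, (uc (k i) ^ 2 - us (k i) ^ 2) * S i),
      mul_self_nonneg (∑ i, uc (k i) * S i), mul_self_nonneg (∑ i, us (k i) * S i)]
  have t4 : ∑ i, ∑ j, (|S i| ^ 2 * |S j| + |S i| * |S j| ^ 2) ≤ 2 * (v * n * (n / 10 ^ 7)) := by
    simp only [sq_abs, sum_add_distrib, ← sum_mul_sum, hv]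
    linarith [mul_le_mul_of_nonneg_left hX hv0]
  have t5 : ∀ i, ∑ j, (1 - A i j) * (1 - (g i j ^ 2 - g i j) / 2) ≤ n / 10 ^ 6 + o i := fun i => by
    have : ∑ j, (1 - A i j) * (1 - (g i j ^ 2 - g i j) / 2) = ∑ j, ((1 - A i j) +
        -1 * ((g i j ^ 2 - g i j) / 2) + A i j * ((g i j ^ 2 - g i j) / 2)) :=
      sum_congr rfl fun j _ => by ring
    rw [this, sum_add_distrib, sum_add_distrib, ← mul_sum, ho]
    linarith [h.deg i, (abs_le.1 (G i).2.1).1]
  have t6 : ∑ i, ∑ j, (1 - A i j) * (1 - (g i j ^ 2 - g i j) / 2) * S i ^ 2 ≤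
      n / 10 ^ 6 * (v * n) + 1 / 2 * ∑ i, o i := by
    rw [← hv, mul_sum, mul_sum, ← sum_add_distrib]
    refine sum_le_sum fun i _ => ?_
    rw [← sum_mul]
    linarith [mul_le_mul_of_nonneg_right (t5 i) (sq_nonneg (S i)),
      mul_le_mul_of_nonneg_left (hV i).2.2 (o0 i)]
  have t7 : ∑ i, ∑ j, (1 - A i j) * (1 - (g i j ^ 2 - g i j) / 2) * S j ^ 2 =
      ∑ i, ∑ j, (1 - A i j) * (1 - (g i j ^ 2 - g i j) / 2) * S i ^ 2 := by
    rw [sum_comm]
    exact sum_congr rfl fun i _ => sum_congr rfl fun j _ => by rw [gs, h.symm]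
  have hv2 : 0 ≤ v := le_of_mul_le_mul_right (by linarith) hn
  have t8 : ∑ i, ∑ j, ((1 - A i j) * (1 - (g i j ^ 2 - g i j) / 2) +
      A i j * ((g i j ^ 2 - g i j) / 2)) * (|S i| * |S j|) ≤ (∑ i, o i + v * n * n) / 1000 := by
    rcases hv2.eq_or_lt with v0 | v0
    · have : ∀ i, S i = 0 := fun i => by
        have := single_le_sum (f := fun i => S i ^ 2) (fun i _ => sq_nonneg _) (mem_univ i)
        rw [hv, ← v0] at this
        nlinarith
      simp only [this, abs_zero, mul_zero, sum_const_zero]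
      positivity
    have a1 : ∑ i, ∑ j, 2 / 1000 * v * (((1 - A i j) * (1 - (g i j ^ 2 - g i j) / 2) +
        A i j * ((g i j ^ 2 - g i j) / 2)) * (|S i| * |S j|)) ≤ ∑ i, ∑ j,
        (v ^ 2 * ((1 - A i j) * (1 - (g i j ^ 2 - g i j) / 2)) +
          v ^ 2 * (A i j * ((g i j ^ 2 - g i j) / 2)) + 1 / 10 ^ 6 * (S i ^ 2 * S j ^ 2)) := by
      refine sum_le_sum fun i _ => sum_le_sum fun j _ => ?_
      rw [← sq_abs (S i), ← sq_abs (S j)]
      have b1 := sq_nonneg (v - |S i| * |S j| / 1000)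
      have b2 := sq_nonneg (|S i| * |S j|)
      rcases h.zo i j with a | a <;> rcases (h4 i j).1 with b | b | b | b <;> rw [a, b.1] <;>
        linarith
    simp only [sum_add_distrib (f := fun j => _ + _), sum_add_distrib (f := fun j => v ^ 2 * _),
      ← mul_sum, ← sum_mul, hv, ho] at a1
    have a2 := sum_le_sum (s := univ) fun i _ => t5 i
    rw [sum_add_distrib, h.one] at a2
    have a3 : v ≤ 1 / 10 ^ 6 := le_of_mul_le_mul_right (by linarith) hn
    refine le_of_mul_le_mul_left ?_ v0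
    nlinarith [mul_le_mul_of_nonneg_left a2 (sq_nonneg v),
      mul_le_mul_of_nonneg_left a3 (mul_nonneg hv2 oO)]
  simp only [ho] at k1
  simp only [sum_add_distrib, ← mul_sum] at t4
  have w0 := mul_nonneg hv0 hn.le
  have z1 : v * n * n ≤ 0 := by linarith
  have z2 : ∑ i, o i ≤ 0 := by linarith
  have z3 : ∀ i, S i = 0 := fun i => by
    have := single_le_sum (f := fun i => S i ^ 2) (fun i _ => sq_nonneg _) (mem_univ i)
    have a1 : v * n ≤ 0 := le_of_mul_le_mul_right (by linarith) hn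
    rw [hv] at this
    nlinarith
  have z4 : ∀ i, C i = 1 := fun i => by
    obtain ⟨a1, a2, -⟩ := (hV i).a
    rw [z3] at a2
    linarith
  simp only [z3, z4, mul_one, mul_zero, sub_zero, add_zero, zero_add] at hc hs hcs hsn
  have z5 := zero_of_sum d0 (by simpa only [ho] using z2)
  have z6 := h.exact k hc hs (by simpa only [hcs] using z5)
  obtain ⟨i⟩ : Nonempty V := Fintype.card_pos_iff.1 (by have := h.card ▸ hn; exact_mod_cast this)
  have z7 : ∑ _j : V, (1 : ℝ) ≤ ∑ j, ((1 - A i j) + (g i j ^ 2 + g i j) / 2) := by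
    refine sum_le_sum fun j _ => ?_
    have a1 := z5 i j
    have a2 := z6 i j
    rw [hsn] at a2
    rcases h.zo i j with a | a <;> rcases (h4 i j).1 with b | b | b | b <;>
      rw [a, b.1] at a1 ⊢ <;> rw [a, b.2] at a2 <;> linarith
  rw [h.one, sum_add_distrib] at z7
  linarith [h.deg i, (abs_le.1 (G i).1).2]

theorem LM.main (h : LM A n (1 / 4 + (1 / 10 ^ 16) ^ 2) c s) (i j : V) : cs c s i j = 1 := by
  obtain ⟨p, q, h1, h2, h3, -⟩ := dir (∑ i, c i) (∑ i, s i)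
  have h4 := h.rot h1
  rw [← (rot_cs c s h1).1]
  rw [mul_sum, mul_sum, ← sum_sub_distrib] at h2
  rw [mul_sum, mul_sum, ← sum_add_distrib] at h3
  rcases le_total (4 / 10 * n) (∑ i, (p * c i + q * s i)) with h5 | h5
  · exact h4.sync (by norm_num) h2 h5 i j
  obtain ⟨a1, a2, a3, a4⟩ := h4.small (by norm_num) h2 h3 h5
  obtain ⟨a, ha⟩ := h4.near (by norm_num) (by norm_num) a2 a3 a4
  obtain ⟨p', q', k, b1, b2, b3, b4⟩ := h4.str a ha
  exact ((h4.rot b1).rigid (by norm_num) le_rfl k b2 b3 b4 (by rwa [(rot_cs _ _ b1).1])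
    (by rwa [(rot_cs _ _ b1).1])).elim

/-- The statement for real lifts of the phases. -/
theorem lifted [DecidableEq V] (A : V → V → ℝ) (hs : ∀ i j, A i j = A j i) (zo : ∀ i j, A i j = 0 ∨ A i j = 1)
    (hd : ∀ i, ∑ j, (1 - (if i = j then 1 else A i j)) ≤
      (1 / 4 + (1 / 10 ^ 16) ^ 2) * (Fintype.card V : ℝ)) (t : V → ℝ)
    (h : ∀ x : V → ℝ, ∀ᶠ τ in 𝓝 (0 : ℝ), ∑ i, ∑ j, A i j * (1 - Real.cos (t i - t j)) ≤
      ∑ i, ∑ j, A i j * (1 - Real.cos (t i + τ * x i - (t j + τ * x j)))) (i j : V) :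
    Real.cos (t i - t j) = 1 := by
  have hL : LM (fun i j => if i = j then 1 else A i j) (Fintype.card V)
      (1 / 4 + (1 / 10 ^ 16) ^ 2) (fun i => Real.cos (t i)) (fun i => Real.sin (t i)) := by
    refine ⟨rfl, by exact_mod_cast Fintype.card_pos_iff.2 ⟨i⟩, fun i j => ?_, fun i j => ?_, hd,
      fun i => Real.cos_sq_add_sin_sq _, fun x => (h x).mono fun τ h1 => ?_⟩
    · by_cases e : i = j
      · rw [e]
      · rw [if_neg e, if_neg (Ne.symm e), hs]
    · split_ifs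
      exacts [Or.inr rfl, zo i j]
    · rw [← sub_nonneg, ← sum_sub_distrib] at h1
      refine h1.trans_eq (sum_congr rfl fun i _ => ?_)
      rw [← sum_sub_distrib]
      refine sum_congr rfl fun j _ => ?_
      beta_reduce
      split_ifs with e
      · simp [e]
      · rw [show t i + τ * x i - (t j + τ * x j) = t i - t j - τ * (x j - x i) by ring,
          Real.cos_sub (t i - t j), Real.cos_sub, Real.sin_sub]
        unfold cs sn
        ring
  rw [Real.cos_sub]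
  exact hL.main i j

end Pool.Agent.H.MP_2fe47b_co
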