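import Pool.Agent.H.MP_2fe47b_co.K4

namespace Pool.Agent.H.MP_2fe47b_co

open Finset Filter Topology

theorem graph {n : ℕ} (G : SimpleGraph (Fin n)) [DecidableRel G.Adj]
    (hd : ∀ v, (3 / 4 - 1 / 10 ^ 32) * ((n : ℝ) - 1) ≤ G.degree v) (t : Fin n → ℝ)
    (h : ∀ x : Fin n → ℝ, ∀ᶠ τ in 𝓝 (0 : ℝ),
      ∑ i, ∑ j, G.adjMatrix ℝ i j * (1 - Real.cos (t i - t j)) ≤
      ∑ i, ∑ j, G.adjMatrix ℝ i j * (1 - Real.cos (t i + τ * x i - (t j + τ * x j))))
    (i j : Fin n) : (t i : Real.Angle) = t j := by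
  have h1 := lifted (G.adjMatrix ℝ) (fun i j => by simp [G.adj_comm]) (fun i j => by
    by_cases e : G.Adj i j <;> simp [e]) (fun i => by
    have a1 : ∑ j, (if i = j then 1 else G.adjMatrix ℝ i j) =
        ∑ j, ((if i = j then 1 else 0) + G.adjMatrix ℝ i j * 1) :=
      sum_congr rfl fun j _ => by split_ifs with e <;> simp [e]
    have a2 := G.adjMatrix_mulVec_const_apply (α := ℝ) (a := 1) (v := i)
    simp only [Matrix.mulVec, dotProduct, Function.const] at a2
    rw [sum_sub_distrib, a1, sum_add_distrib, a2]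
    simp only [sum_const, card_univ, Fintype.card_fin, nsmul_eq_mul, sum_ite_eq, mem_univ, if_true]
    linarith [hd i]) t h i j
  rw [← sub_eq_zero, ← Real.Angle.coe_sub]
  refine Real.Angle.cos_sin_inj (by simpa using h1) ?_
  have := Real.sin_sq_add_cos_sq (t i - t j)
  rw [h1] at this
  simpa using this

theorem torus {n : ℕ} (G : SimpleGraph (Fin n)) [DecidableRel G.Adj]
    (hd : ∀ v, (3 / 4 - 1 / 10 ^ 32) * ((n : ℝ) - 1) ≤ G.degree v) (θ : Fin n → Real.Angle)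
    (h : IsLocalMin (fun θ : Fin n → Real.Angle =>
      1 / 2 * ∑ i, ∑ j, G.adjMatrix ℝ i j * (1 - (θ i - θ j).cos)) θ) (i j : Fin n) :
    θ i = θ j := by
  rw [← (θ i).coe_toReal, ← (θ j).coe_toReal]
  refine graph G hd (fun i => (θ i).toReal) (fun x => ?_) i j
  have h1 : Continuous fun (τ : ℝ) (i : Fin n) => (((θ i).toReal + τ * x i : ℝ) : Real.Angle) :=
    continuous_pi fun i => Real.Angle.continuous_coe.comp (by fun_prop)
  have h2 := h1.tendsto 0
  simp only [zero_mul, add_zero, Real.Angle.coe_toReal] at h2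
  refine (h2.eventually h).mono fun τ h3 => ?_
  simp only [← Real.Angle.cos_coe, Real.Angle.coe_sub, Real.Angle.coe_toReal] at h3 ⊢
  linarith

theorem half {n : ℕ} (G : SimpleGraph (Fin n)) [DecidableRel G.Adj] (t : Fin n → ℝ) :
    ∑ i, ∑ j, G.adjMatrix ℝ i j * (1 - Real.cos (t i - t j)) =
      2 * ∑ i, ∑ j ∈ Ioi i, G.adjMatrix ℝ i j * (1 - Real.cos (t i - t j)) := by
  have h1 := sum_sum_Ioi_add_eq_sum_sum_off_diag
    fun i j : Fin n => G.adjMatrix ℝ i j * (1 - Real.cos (t i - t j))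
  have h2 : ∀ i j, G.adjMatrix ℝ j i * (1 - Real.cos (t j - t i)) =
      G.adjMatrix ℝ i j * (1 - Real.cos (t i - t j)) := fun i j => by
    rw [← Real.cos_neg, neg_sub]; simp [G.adj_comm]
  simp only [sum_add_distrib, h2] at h1
  rw [two_mul, h1]
  refine sum_congr rfl fun i _ => ?_
  rw [← sum_compl_add_sum {i}]
  simp [h2]

theorem flat {n : ℕ} (G : SimpleGraph (Fin n)) [DecidableRel G.Adj]
    (hd : ∀ v, (3 / 4 - 1 / 10 ^ 32) * ((n : ℝ) - 1) ≤ G.degree v) (t : Fin n → ℝ)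
    (h : IsLocalMin (fun t : Fin n → ℝ =>
      ∑ i, ∑ j ∈ Ioi i, G.adjMatrix ℝ i j * (1 - Real.cos (t i - t j))) t) (i j : Fin n) :
    ∃ k : ℤ, t i - t j = 2 * Real.pi * k := by
  refine Real.Angle.angle_eq_iff_two_pi_dvd_sub.1 (graph G hd t (fun x => ?_) i j)
  have h1 : Continuous fun (τ : ℝ) (i : Fin n) => t i + τ * x i := by fun_prop
  have h2 := h1.tendsto 0
  simp only [zero_mul, add_zero] at h2
  refine (h2.eventually h).mono fun τ h3 => ?_
  rw [half, half G fun i => t i + τ * x i]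
  linarith

end Pool.Agent.H.MP_2fe47b_co
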